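import Pool.Agent.X49.ET.Q2

set_option autoImplicit false

/-!
# The Erdős–Turán problem for sets of low algebraic degree

Write the integers below `p ^ m`, `p` prime, with `m` digits in base `p`. The set `A` is given at
the scale `p ^ m` by `s` polynomials over the field with `p` elements of degree at most `D` in the
`m` digits if membership in `A` of the integers below `p ^ m` is a function of the values of the
polynomials (every set is given by one polynomial of degree at most `(p - 1) m`). `r A n` is the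
number of ordered representations of `n` as a sum of two elements of `A`.

1. If `p ^ m - 1` is a sum of two elements of `A` then `r A (p ^ m - 1) ≥ p ^ (m - 2 s D)`.
2. So if `r A ≤ K` and `r A n ≥ 1` for `n ≥ n₀`, then `p ^ m ≤ K p ^ (2 s D)` for every prime `p`
   and every scale `p ^ m > n₀`: the degree of the indicator function of a thin basis with bounded
   representation function is at least `(m - log_p K) / 2` in every prime base and at every scale.
3. Q1 holds, with `r A n ≥ n ^ ε` infinitely often, for every set with `2 s D ≤ (1 - ε) m` for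
   infinitely many `m`, for some prime `p` and `ε > 0`.
4. If `a, b` are elements of `A` below `p ^ m` whose digits are different in `t` places, then
   `r A (a + b) ≥ 2 ^ (t - 2 (p - 1) s D)`.
5. For every prime `p` and `ε > 0` there is `κ > 0` such that `r A n ≥ n ^ κ` infinitely often for
   every set `A` which for infinitely many `m` has at least `p ^ (ε m)` elements below `p ^ m` and
   is given by polynomials with `s D ≤ κ m`.
6. Q2 holds, with `r A n ≥ n ^ κ` infinitely often, for all sets with `s D ≤ κ m` for infinitely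
   many `m`, with `κ > 0` depending only on the prime `p`.
-/

namespace Pool.Agent.Results.MP_12a1af_nt.AlgebraicDegree

open Filter MvPolynomial

/-- The `m` lowest digits of `n` in base `p`, as elements of the field with `p` elements. -/
def dig (p m n : ℕ) : Fin m → ZMod p := fun i => ((n / p ^ (i : ℕ) % p : ℕ) : ZMod p)

/-- Membership in `A` of the integers below `p ^ m` is a function of the values of `s` polynomials
of degree at most `D` at the digits. -/
def LowDeg (p m s D : ℕ) (A : Set ℕ) : Prop :=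
  ∃ (f : Fin s → MvPolynomial (Fin m) (ZMod p)) (S : Set (Fin s → ZMod p)),
    (∀ j, (f j).totalDegree ≤ D) ∧
    ∀ n < p ^ m, (n ∈ A ↔ (fun j => eval (dig p m n) (f j)) ∈ S)

/-- The number of ordered representations of `n` as a sum of two elements of `A`. -/
noncomputable def r (A : Set ℕ) (n : ℕ) : ℕ :=
  {ab : ℕ × ℕ | ab.1 ∈ A ∧ ab.2 ∈ A ∧ ab.1 + ab.2 = n}.ncard

theorem result :
    -- (1) the representations of `p ^ m - 1`
    (∀ (p : ℕ) [Fact p.Prime] (m s D : ℕ) (A : Set ℕ), LowDeg p m s D A →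
      (∃ a ∈ A, ∃ b ∈ A, a + b = p ^ m - 1) → p ^ (m - 2 * s * D) ≤ r A (p ^ m - 1)) ∧
    -- (2) bases with bounded representation function have large degree at every scale
    (∀ (A : Set ℕ) (K n₀ : ℕ), (∀ n, r A n ≤ K) → (∀ n, n₀ ≤ n → 1 ≤ r A n) →
      ∀ (p : ℕ) [Fact p.Prime] (m s D : ℕ), n₀ < p ^ m → LowDeg p m s D A →
        p ^ m ≤ K * p ^ (2 * s * D)) ∧
    -- (3) the first question
    (∀ A : Set ℕ, (∀ᶠ n in atTop, 1 ≤ r A n) → ∀ (p : ℕ) [Fact p.Prime] (ε : ℝ), 0 < ε →
      (∃ᶠ m : ℕ in atTop, ∃ s D : ℕ, LowDeg p m s D A ∧ (2 * s * D : ℝ) ≤ (1 - ε) * m) →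
      ∃ᶠ n : ℕ in atTop, (n : ℝ) ^ ε ≤ r A n) ∧
    -- (4) two elements of `A` with different digits in `t` places
    (∀ (p : ℕ) [Fact p.Prime] (m s D t : ℕ) (A : Set ℕ), LowDeg p m s D A →
      ∀ a ∈ A, ∀ b ∈ A, a < p ^ m → b < p ^ m →
      t ≤ (Finset.univ.filter fun i : Fin m => dig p m a i ≠ dig p m b i).card →
      2 ^ (t - 2 * (p - 1) * s * D) ≤ r A (a + b)) ∧
    -- (5) sets with many elements
    (∀ (p : ℕ) [Fact p.Prime] (ε : ℝ), 0 < ε → ∃ κ : ℝ, 0 < κ ∧ ∀ A : Set ℕ,
      (∃ᶠ m : ℕ in atTop, (p : ℝ) ^ (ε * m) ≤ (A ∩ Set.Iio (p ^ m)).ncard ∧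
        ∃ s D : ℕ, LowDeg p m s D A ∧ (s * D : ℝ) ≤ κ * m) →
      ∃ᶠ n : ℕ in atTop, (n : ℝ) ^ κ ≤ r A n) ∧
    -- (6) the second question
    (∀ (p : ℕ) [Fact p.Prime], ∃ κ : ℝ, 0 < κ ∧ ∀ A : Set ℕ, A.Infinite → ∀ C : ℝ,
      (∀ n : ℕ, (Nat.nth (· ∈ A) n : ℝ) ≤ C * ((n : ℝ) + 1) ^ 2) →
      (∃ᶠ m : ℕ in atTop, ∃ s D : ℕ, LowDeg p m s D A ∧ (s * D : ℝ) ≤ κ * m) →
      ∃ᶠ n : ℕ in atTop, (n : ℝ) ^ κ ≤ r A n) := by
  refine ⟨?_, ?_, ?_, ?_, ?_, ?_⟩
  · rintro p _ m s D A hA ⟨a, ha, b, hb, hab⟩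
    exact Pool.Agent.X49.ET.top_count hA ha hb hab
  · intro A K n₀ hK hn p _ m s D hm hA
    have hp := (Fact.out : p.Prime).two_le
    obtain ⟨⟨a, b⟩, ha, hb, hab⟩ : {ab : ℕ × ℕ | ab.1 ∈ A ∧ ab.2 ∈ A ∧
        ab.1 + ab.2 = p ^ m - 1}.Nonempty := by
      apply Set.nonempty_of_ncard_ne_zero
      have : 1 ≤ {ab : ℕ × ℕ | ab.1 ∈ A ∧ ab.2 ∈ A ∧ ab.1 + ab.2 = p ^ m - 1}.ncard :=
        hn _ (by omega)
      omega
    have h1 := (Pool.Agent.X49.ET.top_count (p := p) (m := m) (s := s) (D := D) hA ha hb hab).trans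
      (hK _)
    calc p ^ m ≤ p ^ (m - 2 * s * D + 2 * s * D) := Nat.pow_le_pow_right (by omega) (by omega)
      _ = p ^ (m - 2 * s * D) * p ^ (2 * s * D) := pow_add _ _ _
      _ ≤ _ := Nat.mul_le_mul_right _ h1
  · intro A hA p _ ε hε h
    exact Pool.Agent.X49.ET.q1 A hA p ε hε h
  · intro p _ m s D t A hA a ha b hb ham hbm ht
    obtain ⟨v, rfl⟩ := Pool.Agent.X49.ET.num_surj (p := p) ham
    obtain ⟨w, rfl⟩ := Pool.Agent.X49.ET.num_surj (p := p) hbm
    refine Pool.Agent.X49.ET.swap_count hA v w ha hb t (ht.trans (Finset.card_le_card ?_))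
    intro i hi
    refine Finset.mem_filter.2 ⟨Finset.mem_univ _, fun h => (Finset.mem_filter.1 hi).2 ?_⟩
    have h1 := congrFun (Pool.Agent.X49.ET.dig_num v) i
    have h2 := congrFun (Pool.Agent.X49.ET.dig_num w) i
    change dig p m (Pool.Agent.X49.ET.num v) i = _ at h1
    change dig p m (Pool.Agent.X49.ET.num w) i = _ at h2
    rw [h1, h2, h]
  · intro p _ ε hε
    exact Pool.Agent.X49.ET.dense p ε hε
  · intro p _
    exact Pool.Agent.X49.ET.q2 p

end Pool.Agent.Results.MP_12a1af_nt.AlgebraicDegree
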