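import Pool.Agent.X8.OH.LinFin

/-!
# MP_12a1af_nt, Q1 and Q2: no approximate linear relations between few translates of `r_A`

Let `r_A(n)` be the number of ordered pairs `(a, b) ∈ A × A` with `a + b = n`, let `r_A ≤ K`, and
let `A` satisfy the hypothesis of Q1 (`r_A(n) ≥ 1` for all large `n`) or of Q2 (`a_n ≤ C n²`).  For
every `L` and `B` there is a `δ > 0`, which depends only on `K, C, L, B`, such that for all large
`N`: for ALL shifts `0 ≤ k_1 < ... < k_l ≤ δ N`, `l ≤ L`, ALL complex coefficients `c_i` with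
`max |c_i| = 1`, and ALL trigonometric polynomials `P(n) = ∑ α_θ e(n θ)` with `|P| ≤ B` and
`∑ |α_θ| ≤ √N / (log N)²` (constants, periodic functions with period at most `N / (log N)^5`, ...),
the inequality `|c_1 r_A(n - k_1) + ... + c_l r_A(n - k_l) - P(n)| ≥ δ` holds for at least `δ N` of
the `n ≤ N`.

So translates of the representation function of a counterexample are linearly independent in a
very strong sense, uniformly in the shifts and coefficients, and modulo almost periodic functions.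

Method: let `F(z) = ∑_{a ∈ A} z^a` and `G(z) = ∑ c_i z^{k_i}` on the circle of radius
`1 - λ / N`.  By the bounds for the mean values of `|F|²` and `|F|⁴` there is a density `φ ≤ 1` of
mass `≥ δ₁` with `|F|² ≥ c √N φ`, and the generating function of `P` has small mean value.  The
small ball inequality `∫ φ |G| ≥ c(L, δ₁) max |c_i|` for exponential sums with `L` terms
(a weak form of the lemma of Turán and Nazarov) is proved by induction on `L`: multiply `φ` with a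
suitable translate of itself and remove one term of `G`.
-/

set_option autoImplicit false

open Finset Filter Topology

namespace Pool.Agent.Results.MP_12a1af_nt.LinearRelations

/-- The number `r_A(n)` of ordered pairs `(a, b) ∈ A × A` with `a + b = n`. -/
noncomputable def rep (A : Set ℕ) (n : ℕ) : ℕ :=
  Set.ncard {p : ℕ × ℕ | p.1 ∈ A ∧ p.2 ∈ A ∧ p.1 + p.2 = n}

/-- The trigonometric polynomial `P(n) = ∑_{θ ∈ Θ} α_θ e^{2 π i n θ}`. -/
noncomputable def trig (Θ : Finset ℝ) (α : ℝ → ℂ) (n : ℕ) : ℂ :=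
  ∑ θ ∈ Θ, α θ * Complex.exp (2 * Real.pi * n * θ * Complex.I)

/-! ### from ordered to unordered pairs -/

open Classical in
/-- pairs from `A` with sum `n` -/
noncomputable def U (A : Set ℕ) (n : ℕ) : Finset (ℕ × ℕ) :=
  (antidiagonal n).filter (fun p => p.1 ∈ A ∧ p.2 ∈ A)

theorem mem_U {A : Set ℕ} {n : ℕ} {p : ℕ × ℕ} :
    p ∈ U A n ↔ p.1 ∈ A ∧ p.2 ∈ A ∧ p.1 + p.2 = n := by
  classical
  simp only [U, Finset.mem_filter, HasAntidiagonal.mem_antidiagonal]
  tauto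

theorem rep_U (A : Set ℕ) (n : ℕ) : rep A n = (U A n).card := by
  unfold rep
  rw [← Set.ncard_coe_finset]
  congr 1
  ext p
  rw [Set.mem_ofPred_eq, Finset.mem_coe, mem_U]

theorem Rn_U (A : Set ℕ) (n : ℕ) :
    Pool.Agent.H303R3.Rn A (Pool.Agent.H303R3.ET.Mo (k := 2)) n =
      ((U A n).filter (fun p => p.1 ≤ p.2)).card := by
  classical
  unfold Pool.Agent.H303R3.Rn
  refine Finset.card_nbij' (fun a => (a 0, a 1)) (fun p => ![p.1, p.2]) ?_ ?_ ?_ ?_
  · intro a ha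
    rw [Finset.mem_coe, Finset.mem_filter, Pool.Agent.H303R3.mem_tup] at ha
    obtain ⟨⟨h1, h2⟩, h3⟩ := ha
    rw [Finset.mem_coe, Finset.mem_filter, mem_U]
    refine ⟨⟨h1 0, h1 1, ?_⟩, h3 (by decide : (0 : Fin 2) ≤ 1)⟩
    rw [Fin.sum_univ_two] at h2
    exact h2
  · intro p hp
    rw [Finset.mem_coe, Finset.mem_filter, mem_U] at hp
    obtain ⟨⟨h1, h2, h3⟩, h4⟩ := hp
    rw [Finset.mem_coe, Finset.mem_filter, Pool.Agent.H303R3.mem_tup]
    refine ⟨⟨fun i => ?_, ?_⟩, ?_⟩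
    · fin_cases i
      · exact h1
      · exact h2
    · rw [Fin.sum_univ_two]
      exact h3
    · intro i j hij
      fin_cases i <;> fin_cases j
      · exact le_rfl
      · exact h4
      · exact absurd hij (by decide)
      · exact le_rfl
  · intro a _
    funext i
    fin_cases i <;> rfl
  · intro p _
    rfl

theorem rep_two (A : Set ℕ) (n : ℕ) (hn : ∀ a ∈ A, 2 * a ≠ n) :
    rep A n = 2 * Pool.Agent.H303R3.Rn A (Pool.Agent.H303R3.ET.Mo (k := 2)) n := by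
  classical
  rw [rep_U, Rn_U, ← Finset.card_filter_add_card_filter_not (s := U A n) (fun p => p.1 ≤ p.2),
    two_mul]
  congr 1
  refine Finset.card_nbij' (fun p => p.swap) (fun p => p.swap) ?_ ?_ ?_ ?_
  · intro p hp
    rw [Finset.mem_coe, Finset.mem_filter, mem_U] at hp ⊢
    simp only [Prod.fst_swap, Prod.snd_swap]
    exact ⟨⟨hp.1.2.1, hp.1.1, by omega⟩, by omega⟩
  · intro p hp
    rw [Finset.mem_coe, Finset.mem_filter, mem_U] at hp ⊢
    simp only [Prod.fst_swap, Prod.snd_swap]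
    refine ⟨⟨hp.1.2.1, hp.1.1, by omega⟩, ?_⟩
    intro hc
    apply hn p.1 hp.1.1
    omega
  · intro p _; simp
  · intro p _; simp

theorem Rn_le_rep (A : Set ℕ) (n : ℕ) :
    Pool.Agent.H303R3.Rn A (Pool.Agent.H303R3.ET.Mo (k := 2)) n ≤ rep A n := by
  rw [rep_U, Rn_U]
  exact Finset.card_filter_le _ _

theorem one_le_Rn {A : Set ℕ} {n : ℕ} (h : 1 ≤ rep A n) :
    1 ≤ Pool.Agent.H303R3.Rn A (Pool.Agent.H303R3.ET.Mo (k := 2)) n := by
  rw [rep_U] at h
  rw [Rn_U]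
  obtain ⟨p, hp⟩ := Finset.card_pos.1 h
  rw [mem_U] at hp
  apply Finset.card_pos.2
  rcases le_total p.1 p.2 with h1 | h1
  · exact ⟨p, by rw [Finset.mem_filter, mem_U]; exact ⟨hp, h1⟩⟩
  · exact ⟨p.swap, by
      rw [Finset.mem_filter, mem_U]
      simp only [Prod.fst_swap, Prod.snd_swap]
      exact ⟨⟨hp.2.1, hp.1, by omega⟩, h1⟩⟩

open Classical in
/-- a set with bounded representation function is thin -/
theorem thin {A : Set ℕ} {K : ℕ} (hK : ∀ n, rep A n ≤ K) (N : ℕ) :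
    (((range (N + 1)).filter (fun a => a ∈ A)).card) ^ 2 ≤ K * (2 * N + 1) := by
  obtain ⟨T, hT⟩ : ∃ T, T = (range (N + 1)).filter (fun a => a ∈ A) := ⟨_, rfl⟩
  rw [← hT, sq, ← Finset.card_product]
  have h1 : ∀ p ∈ T ×ˢ T, p.1 + p.2 ∈ range (2 * N + 1) := by
    intro p hp
    rw [Finset.mem_product, hT, Finset.mem_filter, Finset.mem_filter, mem_range, mem_range] at hp
    rw [mem_range]
    omega
  rw [Finset.card_eq_sum_card_fiberwise h1]
  calc ∑ n ∈ range (2 * N + 1), ((T ×ˢ T).filter (fun p => p.1 + p.2 = n)).card ≤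
        ∑ _n ∈ range (2 * N + 1), K := by
        refine Finset.sum_le_sum fun n _ => le_trans ?_ (hK n)
        rw [rep_U]
        refine Finset.card_le_card fun p hp => ?_
        rw [Finset.mem_filter, Finset.mem_product, hT, Finset.mem_filter, Finset.mem_filter] at hp
        rw [mem_U]
        exact ⟨hp.1.1.2, hp.1.2.2, hp.2⟩
    _ = K * (2 * N + 1) := by rw [Finset.sum_const, card_range, smul_eq_mul, mul_comm]

theorem trig_eq (Θ : Finset ℝ) (α : ℝ → ℂ) (n : ℕ) : X8.OH.PP Θ α n = trig Θ α n := by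
  unfold X8.OH.PP trig
  refine Finset.sum_congr rfl fun θ _ => ?_
  rw [X8.OH.en_eq]
  congr 2
  push_cast
  ring

theorem trig_half (Θ : Finset ℝ) (α : ℝ → ℂ) (n : ℕ) :
    trig Θ (fun θ => α θ / 2) n = trig Θ α n / 2 := by
  unfold trig
  rw [Finset.sum_div]
  exact Finset.sum_congr rfl fun θ _ => by ring

open Classical in
theorem sum_eq (A : Set ℕ) (W : Finset ℕ) (c : ℕ → ℂ) {n : ℕ} (hn : ∀ k ∈ W, k ≤ n)
    (h2 : ∀ k ∈ W, ∀ a ∈ A, 2 * a ≠ n - k) :
    ∑ k ∈ W, c k * (rep A (n - k) : ℂ) =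
      2 * X8.OH.Sc A 2 (fun k => if k ∈ W then c k else 0) n := by
  unfold X8.OH.Sc
  rw [Finset.Nat.sum_antidiagonal_eq_sum_range_succ
    (fun i j => (if i ∈ W then c i else 0) * ((X8.OH.rr A 2 j : ℝ) : ℂ))]
  have h1 : ∀ k ∈ range (n + 1), (if k ∈ W then c k else 0) * ((X8.OH.rr A 2 (n - k) : ℝ) : ℂ) =
      if k ∈ W then c k * ((X8.OH.rr A 2 (n - k) : ℝ) : ℂ) else 0 := by
    intro k _
    split_ifs
    · rfl
    · exact zero_mul _
  rw [Finset.sum_congr rfl h1, ← Finset.sum_filter]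
  have h3 : (range (n + 1)).filter (fun k => k ∈ W) = W := by
    ext k
    simp only [Finset.mem_filter, Finset.mem_range]
    constructor
    · exact fun h => h.2
    · exact fun h => ⟨by have := hn k h; omega, h⟩
  rw [h3, Finset.mul_sum]
  refine Finset.sum_congr rfl fun k hk => ?_
  rw [rep_two A (n - k) (h2 k hk)]
  unfold X8.OH.rr
  push_cast
  ring

/-- **Translates of a bounded representation function satisfy no approximate linear relation.** -/
theorem result (K L : ℕ) (B C : ℝ) :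
    ∃ δ : ℝ, 0 < δ ∧ ∀ A : Set ℕ, (∀ n, rep A n ≤ K) →
    ((∀ᶠ n in atTop, 1 ≤ rep A n) ∨ (A.Infinite ∧
      ∀ n : ℕ, 1 ≤ n → (Nat.nth (fun a => a ∈ A) (n - 1) : ℝ) ≤ C * (n : ℝ) ^ 2)) →
    ∀ᶠ N : ℕ in atTop, ∀ W : Finset ℕ, W.card ≤ L → (∀ k ∈ W, (k : ℝ) ≤ δ * N) →
      ∀ c : ℕ → ℂ, (∀ k ∈ W, ‖c k‖ ≤ 1) → (∃ κ ∈ W, ‖c κ‖ = 1) →
      ∀ (Θ : Finset ℝ) (α : ℝ → ℂ), (∀ n, ‖trig Θ α n‖ ≤ B) →
      (∑ θ ∈ Θ, ‖α θ‖) * Real.log N ^ 2 ≤ √N →
      δ * N ≤ (Set.ncard {n : ℕ | n ≤ N ∧ (∀ k ∈ W, k ≤ n) ∧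
        δ ≤ ‖∑ k ∈ W, c k * (rep A (n - k) : ℂ) - trig Θ α n‖} : ℝ) := by
  classical
  obtain ⟨C', hC'⟩ : ∃ C' : ℝ, C' = max C 1 := ⟨_, rfl⟩
  have hC'1 : 1 ≤ C' := hC' ▸ le_max_right _ _
  have hC'C : C ≤ C' := hC' ▸ le_max_left _ _
  obtain ⟨μ, hμ⟩ : ∃ μ : ℝ, μ = Real.Gamma (1 / ((2 : ℕ) : ℝ) + 1) ^ 2 /
    ((2 : ℕ).factorial * C') := ⟨_, rfl⟩
  have hμ0 : 0 < μ := by
    rw [hμ]
    have : 0 < Real.Gamma (1 / ((2 : ℕ) : ℝ) + 1) := Real.Gamma_pos_of_pos (by positivity)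
    have h2 : (0 : ℝ) < (2 : ℕ).factorial := by exact_mod_cast Nat.factorial_pos _
    positivity
  obtain ⟨m', hm'⟩ : ∃ m' : ℝ, m' = min (1 / 2) (μ / 2) := ⟨_, rfl⟩
  have hm'0 : 0 < m' := by rw [hm']; exact lt_min (by norm_num) (by linarith)
  have hm'1 : m' < 1 := by
    have : m' ≤ 1 / 2 := by rw [hm']; exact min_le_left _ _
    linarith
  have hm'μ : m' < μ := by
    have : m' ≤ μ / 2 := by rw [hm']; exact min_le_right _ _
    linarith
  obtain ⟨δ₀, hδ₀, hmain⟩ := X8.OH.lin_growing 0 K L (max B 0) m' hm'0 (le_max_right _ _)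
  refine ⟨δ₀ / 2, by positivity, fun A hK hA => ?_⟩
  have hK' : ∀ n, Pool.Agent.H303R3.Rn A (Pool.Agent.H303R3.ET.Mo (k := 0 + 2)) n ≤ K :=
    fun n => (Rn_le_rep A n).trans (hK n)
  have hne : A.Nonempty := by
    rcases hA with hA | ⟨hinf, -⟩
    · obtain ⟨n, hn⟩ := hA.exists
      have h1 : 0 < rep A n := hn
      unfold rep at h1
      obtain ⟨p, hp, -⟩ := Set.nonempty_of_ncard_ne_zero h1.ne'
      exact ⟨p.1, hp⟩
    · exact hinf.nonempty
  have hR : ∀ᶠ R : ℝ in 𝓝[<] 1, m' ≤ (1 - R) * Pool.Agent.H303R3.fr A R ^ (0 + 2) /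
      (0 + 2).factorial := by
    rcases hA with hA | ⟨hinf, hC⟩
    · refine X8.OH.basis_ev A (h := 2) (by omega) ?_ K hK' hm'1
      filter_upwards [hA] with n hn
      exact one_le_Rn hn
    · refine X8.OH.growth_ev A hinf (h := 2) (by omega) C' (fun n hn => (hC n hn).trans ?_) ?_
      · exact mul_le_mul_of_nonneg_right hC'C (by positivity)
      · rw [← hμ]
        exact hm'μ
  -- the exceptional numbers are few
  have hbig : ∀ᶠ N : ℕ in atTop, (L : ℝ) ^ 2 * (K * (2 * N + 1)) ≤ (δ₀ / 2 * N) ^ 2 := by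
    have h1 : Tendsto (fun N : ℕ => (δ₀ / 2) ^ 2 * (N : ℝ)) atTop atTop :=
      tendsto_natCast_atTop_atTop.const_mul_atTop (by positivity)
    filter_upwards [h1.eventually_ge_atTop (3 * ((L : ℝ) ^ 2 * K)), eventually_ge_atTop 1]
      with N h2 h3
    have h4 : (1 : ℝ) ≤ N := by exact_mod_cast h3
    have h5 : 0 ≤ (L : ℝ) ^ 2 * K := by positivity
    calc (L : ℝ) ^ 2 * (K * (2 * N + 1)) = ((L : ℝ) ^ 2 * K) * (2 * N + 1) := by ring
      _ ≤ ((L : ℝ) ^ 2 * K) * (3 * N) := mul_le_mul_of_nonneg_left (by linarith) h5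
      _ = (3 * ((L : ℝ) ^ 2 * K)) * N := by ring
      _ ≤ ((δ₀ / 2) ^ 2 * N) * N := mul_le_mul_of_nonneg_right h2 (by linarith)
      _ = _ := by ring
  filter_upwards [hmain A hne hK' hR, hbig] with N hN hN2
  intro W hW hWδ c hc1 hκ Θ α hP hα
  obtain ⟨κ, hκW, hκ1⟩ := hκ
  have hN0 : (0 : ℝ) ≤ N := Nat.cast_nonneg N
  have h1 := hN W hW (fun k hk => (hWδ k hk).trans
      (mul_le_mul_of_nonneg_right (by linarith) hN0)) (fun k => if k ∈ W then c k else 0)
    (fun k hk => if_neg hk)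
    (fun k => by
      show ‖(if k ∈ W then c k else 0)‖ ≤ 1
      split_ifs with hk
      · exact hc1 k hk
      · simp)
    ⟨κ, hκW, by
      show ‖(if κ ∈ W then c κ else 0)‖ = 1
      rw [if_pos hκW]
      exact hκ1⟩ Θ (fun θ => α θ / 2) (fun n => by
      rw [trig_eq, trig_half, norm_div, Complex.norm_ofNat]
      have h2 := hP n
      have h3 := norm_nonneg (trig Θ α n)
      have h4 := le_max_left B 0
      linarith) (by
      refine le_trans ?_ hα
      refine mul_le_mul_of_nonneg_right (Finset.sum_le_sum fun θ _ => ?_) (sq_nonneg _)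
      rw [norm_div, Complex.norm_ofNat]
      linarith [norm_nonneg (α θ)])
  -- the exceptional set
  obtain ⟨T, hT⟩ : ∃ T : Finset ℕ, T = (range (N + 1)).filter (fun a => a ∈ A) := ⟨_, rfl⟩
  obtain ⟨E, hE⟩ : ∃ E : Finset ℕ, E = (W ×ˢ T).image (fun p => 2 * p.2 + p.1) := ⟨_, rfl⟩
  have hEc : (E.card : ℝ) ≤ δ₀ / 2 * N := by
    have e1 : E.card ≤ L * T.card := by
      rw [hE]
      refine Finset.card_image_le.trans ?_
      rw [Finset.card_product]
      exact Nat.mul_le_mul_right _ hW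
    have e2 := thin hK N
    rw [← hT] at e2
    have e3 : ((L : ℝ) * T.card) ^ 2 ≤ (δ₀ / 2 * N) ^ 2 := by
      refine le_trans ?_ hN2
      rw [mul_pow]
      exact mul_le_mul_of_nonneg_left (by exact_mod_cast e2) (by positivity)
    have e4 := le_of_pow_le_pow_left₀ (n := 2) (by norm_num) (by positivity) e3
    exact le_trans (by exact_mod_cast e1) e4
  obtain ⟨G, hG⟩ : ∃ G : Finset ℕ, G = (range (N + 1)).filter (fun n => (∀ k ∈ W, k ≤ n) ∧
    δ₀ ≤ ‖X8.OH.Sc A (0 + 2) (fun k => if k ∈ W then c k else 0) n -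
      X8.OH.PP Θ (fun θ => α θ / 2) n‖) := ⟨_, rfl⟩
  rw [← hG] at h1
  have hsub : ((G \ E : Finset ℕ) : Set ℕ) ⊆ {n : ℕ | n ≤ N ∧ (∀ k ∈ W, k ≤ n) ∧
        δ₀ / 2 ≤ ‖∑ k ∈ W, c k * (rep A (n - k) : ℂ) - trig Θ α n‖} := by
    intro n hn
    rw [Finset.mem_coe, Finset.mem_sdiff, hG, Finset.mem_filter, mem_range, Nat.lt_succ_iff] at hn
    obtain ⟨⟨a1, a2, a3⟩, a4⟩ := hn
    refine ⟨a1, a2, ?_⟩
    have a5 : ∀ k ∈ W, ∀ a ∈ A, 2 * a ≠ n - k := by
      intro k hk a ha h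
      apply a4
      rw [hE, Finset.mem_image]
      refine ⟨(k, a), ?_, ?_⟩
      · rw [Finset.mem_product, hT, Finset.mem_filter, mem_range]
        exact ⟨hk, by show a < N + 1; omega, ha⟩
      · show 2 * a + k = n
        have := a2 k hk
        omega
    rw [sum_eq A W c a2 a5]
    rw [trig_eq, trig_half] at a3
    have a6 : 2 * X8.OH.Sc A 2 (fun k => if k ∈ W then c k else 0) n - trig Θ α n =
        2 * (X8.OH.Sc A (0 + 2) (fun k => if k ∈ W then c k else 0) n - trig Θ α n / 2) := by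
      ring
    rw [a6, norm_mul, Complex.norm_ofNat]
    linarith
  have hfin : Set.Finite {n : ℕ | n ≤ N ∧ (∀ k ∈ W, k ≤ n) ∧
        δ₀ / 2 ≤ ‖∑ k ∈ W, c k * (rep A (n - k) : ℂ) - trig Θ α n‖} :=
    (Set.finite_Iic N).subset fun n hn => hn.1
  have h5 := Set.ncard_le_ncard hsub hfin
  rw [Set.ncard_coe_finset] at h5
  have h6 : G.card ≤ (G \ E).card + E.card := by
    have := Finset.card_le_card (show G ⊆ (G \ E) ∪ E by
      intro n hn
      rw [Finset.mem_union, Finset.mem_sdiff]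
      by_cases h : n ∈ E
      · exact Or.inr h
      · exact Or.inl ⟨hn, h⟩)
    exact this.trans (Finset.card_union_le _ _)
  have h7 : (G.card : ℝ) ≤ ((G \ E).card : ℝ) + E.card := by exact_mod_cast h6
  have h8 : ((G \ E).card : ℝ) ≤ (Set.ncard {n : ℕ | n ≤ N ∧ (∀ k ∈ W, k ≤ n) ∧
        δ₀ / 2 ≤ ‖∑ k ∈ W, c k * (rep A (n - k) : ℂ) - trig Θ α n‖} : ℝ) := by
    exact_mod_cast h5
  linarith

end Pool.Agent.Results.MP_12a1af_nt.LinearRelations
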