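import Mathlib
import Pool.Agent.TH314.ET.Lim

set_option autoImplicit false

open Finset Filter Topology

namespace Pool.Agent.Results.MP_12a1af_nt.ResidueProduct

open Pool.Agent.TH314.ET

/-- The number `r_A(n)` of ordered pairs `(a, b) ∈ A × A` with `a + b = n`. -/
noncomputable def rep (A : Set ℕ) (n : ℕ) : ℕ :=
  Set.ncard {p : ℕ × ℕ | p.1 ∈ A ∧ p.2 ∈ A ∧ p.1 + p.2 = n}

/-- The number of residue classes modulo `q` that contain an element of `A`. -/
noncomputable def res (A : Set ℕ) (q : ℕ) : ℕ := ((fun a => a % q) '' A).ncard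

/-- `P`-factor: `∏_{p ∈ P} (1 + (p - ν_p)² / (ν_p² (p - 1)))`, `ν_p` the number of the residue
classes modulo `p` met by `A`. -/
noncomputable def factor (A : Set ℕ) (P : Finset ℕ) : ℝ :=
  ∏ p ∈ P, (1 + (((p : ℝ) - res A p) / res A p) ^ 2 / ((p : ℝ) - 1))

theorem factor_eq (A : Set ℕ) (P : Finset ℕ) : factor A P =
    ∏ p ∈ P, (1 + (((p : ℝ) - TH314.ET.res A p) / TH314.ET.res A p) ^ 2 / ((p : ℝ) - 1)) := rfl

theorem factor_pos (A : Set ℕ) (P : Finset ℕ) (hP : ∀ p ∈ P, p.Prime) : 0 < factor A P := by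
  refine Finset.prod_pos fun p hp => ?_
  have : (1 : ℝ) < p := by exact_mod_cast (hP p hp).one_lt
  have h2 : 0 ≤ (((p : ℝ) - res A p) / res A p) ^ 2 / ((p : ℝ) - 1) :=
    div_nonneg (by positivity) (by linarith)
  linarith

/-- bounded representations bound the Abel mean -/
theorem mean_le (A : Set ℕ) (K : ℝ) (n₁ : ℕ)
    (hK : ∀ n, n₁ ≤ n → (TH314.ET.rep A n : ℝ) ≤ K) {ρ : ℝ} (h0 : 0 ≤ ρ) (h1 : ρ < 1) :
    (1 - ρ) * gf A ρ ^ 2 ≤ K + ∑ i ∈ range n₁, (TH314.ET.rep A i : ℝ) := by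
  rw [gf_sq A h0 h1]
  have hs := rw_summable_real A h0 h1
  have h2 : ∑' n : ℕ, (TH314.ET.rep A n : ℝ) * ρ ^ n ≤
      ∑ i ∈ range n₁, (TH314.ET.rep A i : ℝ) + K * (1 - ρ)⁻¹ := by
    rw [← hs.sum_add_tsum_nat_add n₁]
    refine add_le_add ?_ ?_
    · refine Finset.sum_le_sum fun i _ => ?_
      exact mul_le_of_le_one_right (Nat.cast_nonneg _) (pow_le_one₀ h0 h1.le)
    · rw [← tsum_geometric_of_lt_one h0 h1, ← tsum_mul_left]
      refine Summable.tsum_le_tsum (fun j => ?_)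
        ((summable_nat_add_iff (f := fun n : ℕ => (TH314.ET.rep A n : ℝ) * ρ ^ n) n₁).2 hs)
        ((summable_geometric_of_lt_one h0 h1).mul_left _)
      have h3 := hK (j + n₁) (by omega)
      have h4 : ρ ^ (j + n₁) ≤ ρ ^ j := pow_le_pow_of_le_one h0 h1.le (by omega)
      have h5 : 0 ≤ ρ ^ j := by positivity
      have h6 : (0 : ℝ) ≤ TH314.ET.rep A (j + n₁) := Nat.cast_nonneg _
      nlinarith
  have h3 : 0 < 1 - ρ := by linarith
  have h4 : 0 ≤ ∑ i ∈ range n₁, (TH314.ET.rep A i : ℝ) :=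
    Finset.sum_nonneg fun _ _ => Nat.cast_nonneg _
  calc (1 - ρ) * ∑' n : ℕ, (TH314.ET.rep A n : ℝ) * ρ ^ n
      ≤ (1 - ρ) * (∑ i ∈ range n₁, (TH314.ET.rep A i : ℝ) + K * (1 - ρ)⁻¹) :=
        mul_le_mul_of_nonneg_left h2 h3.le
    _ = (1 - ρ) * ∑ i ∈ range n₁, (TH314.ET.rep A i : ℝ) + K := by field_simp
    _ ≤ _ := by nlinarith

open Classical in
/-- a number with exactly one ordered representation is twice an element -/
theorem two_le (A : Set ℕ) (n : ℕ) (h : 1 ≤ TH314.ET.rep A n) :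
    2 ≤ TH314.ET.rep A n + (if ∃ a ∈ A, 2 * a = n then 1 else 0) := by
  split_ifs with hd
  · omega
  · rw [TH314.ET.rep_eq] at h ⊢
    obtain ⟨p, hp⟩ := Finset.card_pos.1 h
    rw [Finset.mem_filter, HasAntidiagonal.mem_antidiagonal] at hp
    have hne : p ≠ p.swap := by
      intro he
      have h1 : p.1 = p.2 := by
        have := congrArg Prod.fst he
        simpa using this
      exact hd ⟨p.1, hp.2.1, by omega⟩
    have : ({p, p.swap} : Finset (ℕ × ℕ)) ⊆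
        (antidiagonal n).filter (fun p => p.1 ∈ A ∧ p.2 ∈ A) := by
      intro q hq
      rw [Finset.mem_insert, Finset.mem_singleton] at hq
      rcases hq with rfl | rfl
      · rw [Finset.mem_filter, HasAntidiagonal.mem_antidiagonal]
        exact hp
      · rw [Finset.mem_filter, HasAntidiagonal.mem_antidiagonal]
        refine ⟨?_, hp.2.2, hp.2.1⟩
        simp only [Prod.fst_swap, Prod.snd_swap]
        omega
    have h2 := Finset.card_le_card this
    rw [Finset.card_pair hne] at h2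
    omega

open Classical in
/-- lower bound of the Abel mean of a basis -/
theorem mean_ge (A : Set ℕ) (n₀ : ℕ) (hA : ∀ n, n₀ ≤ n → 1 ≤ TH314.ET.rep A n) {ρ : ℝ}
    (h0 : 0 < ρ) (h1 : ρ < 1) : 2 * ρ ^ n₀ - (1 - ρ) * gf A ρ ≤ (1 - ρ) * gf A ρ ^ 2 := by
  have hρ0 := h0.le
  rw [gf_sq A hρ0 h1]
  have hs := rw_summable_real A hρ0 h1
  -- the diagonal
  set d : ℕ → ℝ := fun n => if ∃ a ∈ A, 2 * a = n then 1 else 0 with hd
  have hd0 : ∀ n, 0 ≤ d n := fun n => by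
    simp only [hd]
    split_ifs <;> norm_num
  have hd1 : ∀ n, d n ≤ 1 := fun n => by
    simp only [hd]
    split_ifs <;> norm_num
  have hds : Summable fun n : ℕ => d n * ρ ^ n := by
    refine Summable.of_nonneg_of_le (fun n => by have := hd0 n; positivity) (fun n => ?_)
      (summable_geometric_of_lt_one hρ0 h1)
    exact mul_le_of_le_one_left (by positivity) (hd1 n)
  have hgs : Summable fun n : ℕ => (if n ∈ A then ρ ^ n else 0 : ℝ) := by
    refine Summable.of_nonneg_of_le (fun n => by split_ifs <;> positivity) (fun n => ?_)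
      (summable_geometric_of_lt_one hρ0 h1)
    split_ifs
    · exact le_rfl
    · positivity
  have hdle : ∑' n : ℕ, d n * ρ ^ n ≤ gf A ρ := by
    have hinj : Function.Injective (fun a : ℕ => 2 * a) := fun a b hab => by
      simpa using hab
    have h2 : ∑' n : ℕ, d n * ρ ^ n = ∑' a : ℕ, d (2 * a) * ρ ^ (2 * a) := by
      refine (hinj.tsum_eq (f := fun n : ℕ => d n * ρ ^ n) ?_).symm
      intro n hn
      rw [Function.mem_support] at hn
      by_contra hc
      apply hn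
      have : d n = 0 := by
        simp only [hd]
        rw [if_neg]
        rintro ⟨a, _, ha⟩
        exact hc ⟨a, ha⟩
      rw [this, zero_mul]
    rw [h2]
    unfold gf
    refine Summable.tsum_le_tsum (fun a => ?_) (hds.comp_injective hinj) hgs
    simp only [hd]
    by_cases ha : a ∈ A
    · rw [if_pos ⟨a, ha, rfl⟩, if_pos ha, one_mul]
      exact pow_le_pow_of_le_one hρ0 h1.le (by omega)
    · rw [if_neg ha, if_neg]
      · simp
      · rintro ⟨b, hb, hb2⟩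
        have : b = a := by omega
        exact ha (this ▸ hb)
  -- the sum
  have hs' : Summable fun j : ℕ => (TH314.ET.rep A (j + n₀) : ℝ) * ρ ^ (j + n₀) :=
    (summable_nat_add_iff (f := fun n : ℕ => (TH314.ET.rep A n : ℝ) * ρ ^ n) n₀).2 hs
  have hds' : Summable fun j : ℕ => d (j + n₀) * ρ ^ (j + n₀) :=
    (summable_nat_add_iff (f := fun n : ℕ => d n * ρ ^ n) n₀).2 hds
  have h3 : ∑' j : ℕ, (TH314.ET.rep A (j + n₀) : ℝ) * ρ ^ (j + n₀) ≤
      ∑' n : ℕ, (TH314.ET.rep A n : ℝ) * ρ ^ n := by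
    rw [← hs.sum_add_tsum_nat_add n₀]
    have : 0 ≤ ∑ i ∈ range n₀, (TH314.ET.rep A i : ℝ) * ρ ^ i :=
      Finset.sum_nonneg fun _ _ => by positivity
    linarith
  have h4 : ∑' j : ℕ, d (j + n₀) * ρ ^ (j + n₀) ≤ ∑' n : ℕ, d n * ρ ^ n := by
    rw [← hds.sum_add_tsum_nat_add n₀]
    have : 0 ≤ ∑ i ∈ range n₀, d i * ρ ^ i :=
      Finset.sum_nonneg fun i _ => mul_nonneg (hd0 i) (by positivity)
    linarith
  have h5 : 2 * ρ ^ n₀ * (1 - ρ)⁻¹ ≤ ∑' j : ℕ, (TH314.ET.rep A (j + n₀) : ℝ) * ρ ^ (j + n₀) +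
      ∑' j : ℕ, d (j + n₀) * ρ ^ (j + n₀) := by
    rw [← tsum_geometric_of_lt_one hρ0 h1, ← tsum_mul_left, ← hs'.tsum_add hds']
    refine Summable.tsum_le_tsum (fun j => ?_)
      ((summable_geometric_of_lt_one hρ0 h1).mul_left _) (hs'.add hds')
    have h6 := two_le A (j + n₀) (hA _ (by omega))
    have h7 : (2 : ℝ) ≤ TH314.ET.rep A (j + n₀) + d (j + n₀) := by
      have h8 : ((2 : ℕ) : ℝ) ≤ ((TH314.ET.rep A (j + n₀) +
          (if ∃ a ∈ A, 2 * a = j + n₀ then 1 else 0) : ℕ) : ℝ) := by exact_mod_cast h6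
      push_cast at h8
      exact h8
    rw [← add_mul, pow_add]
    have h8 : 0 ≤ ρ ^ j * ρ ^ n₀ := by positivity
    nlinarith
  have h6 : (0 : ℝ) < 1 - ρ := by linarith
  have h7 : 2 * ρ ^ n₀ * (1 - ρ)⁻¹ ≤ ∑' n : ℕ, (TH314.ET.rep A n : ℝ) * ρ ^ n + gf A ρ := by
    linarith
  have h8 := mul_le_mul_of_nonneg_left h7 h6.le
  have h9 : (1 - ρ) * (2 * ρ ^ n₀ * (1 - ρ)⁻¹) = 2 * ρ ^ n₀ := by field_simp
  rw [h9] at h8
  linarith

/-- rounding: the step from the Abel mean to the representation function -/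
theorem of_mean (A : Set ℕ) (P : Finset ℕ) (hP : ∀ p ∈ P, p.Prime) (M : ℝ) (hM0 : 0 < M)
    (hM : ∀ (K : ℝ) (n₁ : ℕ), (∀ n, n₁ ≤ n → (TH314.ET.rep A n : ℝ) ≤ K) → ∀ m < M,
      ∃ᶠ ρ : ℝ in 𝓝[<] 1, m ≤ (1 - ρ) * gf A ρ ^ 2) :
    ∃ᶠ n : ℕ in atTop, M * factor A P ≤ (TH314.ET.rep A n : ℝ) := by
  by_contra hcon
  rw [not_frequently] at hcon
  have hG := factor_pos A P hP
  set G := factor A P with hGdef
  obtain ⟨n₁, hn₁⟩ := eventually_atTop.1 hcon
  set k : ℕ := ⌈M * G⌉₊ - 1 with hk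
  have hc1 : 1 ≤ ⌈M * G⌉₊ := Nat.one_le_ceil_iff.2 (by positivity)
  have hkG : (k : ℝ) < M * G := by
    have h1 : k < ⌈M * G⌉₊ := by omega
    exact Nat.lt_ceil.1 h1
  have hK : ∀ n, n₁ ≤ n → (TH314.ET.rep A n : ℝ) ≤ k := by
    intro n hn
    have h1 := hn₁ n hn
    push Not at h1
    have h2 : TH314.ET.rep A n < ⌈M * G⌉₊ := Nat.lt_ceil.2 h1
    exact_mod_cast (by omega : TH314.ET.rep A n ≤ k)
  have hkG' : (k : ℝ) / G < M := (div_lt_iff₀ hG).2 hkG
  obtain ⟨m, hm1, hm2⟩ := exists_between hkG'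
  have h4 := product_formula A k n₁ hK P hP m (hM k n₁ hK m hm2)
  rw [← factor_eq, ← hGdef] at h4
  have h5 : (k : ℝ) < m * G := (div_lt_iff₀ hG).1 hm1
  linarith

/-- **Bases.** -/
theorem basis (A : Set ℕ) (hA : ∀ᶠ n in atTop, 1 ≤ TH314.ET.rep A n) (P : Finset ℕ)
    (hP : ∀ p ∈ P, p.Prime) :
    ∃ᶠ n : ℕ in atTop, 2 * factor A P ≤ (TH314.ET.rep A n : ℝ) := by
  obtain ⟨n₀, hA⟩ := eventually_atTop.1 hA
  refine of_mean A P hP 2 two_pos fun K n₁ hK m hm2 => Eventually.frequently ?_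
  -- the Abel mean tends to a limit at least `2`
  have hK0 : 0 ≤ K := (Nat.cast_nonneg _).trans (hK n₁ le_rfl)
  set B : ℝ := K + ∑ i ∈ range n₁, (TH314.ET.rep A i : ℝ) with hB
  have hB0 : 0 ≤ B := by positivity
  have hlim : Tendsto (fun ρ : ℝ => 2 * ρ ^ n₀ - √(1 - ρ) * √B) (𝓝[<] 1) (𝓝 2) := by
    have h1 : Tendsto (fun ρ : ℝ => 2 * ρ ^ n₀ - √(1 - ρ) * √B) (𝓝[<] 1)
        (𝓝 (2 * 1 ^ n₀ - √(1 - 1) * √B)) := by
      apply Tendsto.mono_left _ nhdsWithin_le_nhds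
      exact (by fun_prop : Continuous fun ρ : ℝ => 2 * ρ ^ n₀ - √(1 - ρ) * √B).tendsto 1
    simpa using h1
  have h3 : ∀ᶠ ρ : ℝ in 𝓝[<] 1, ρ ∈ Set.Ioo (0 : ℝ) 1 := Ioo_mem_nhdsLT (by norm_num)
  filter_upwards [hlim.eventually_const_lt hm2, h3] with ρ h4 h5
  have h6 := mean_ge A n₀ hA h5.1 h5.2
  have h7 := mean_le A K n₁ hK h5.1.le h5.2
  have h8 : 0 ≤ 1 - ρ := by linarith [h5.2]
  have h9 : (1 - ρ) * gf A ρ ≤ √(1 - ρ) * √B := by
    rw [← Real.sqrt_mul h8]
    apply Real.le_sqrt_of_sq_le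
    have : ((1 - ρ) * gf A ρ) ^ 2 = (1 - ρ) * ((1 - ρ) * gf A ρ ^ 2) := by ring
    rw [this]
    exact mul_le_mul_of_nonneg_left h7 h8
  linarith

open Real Classical in
/-- the generating function of a set with `a_n ≤ C n²` -/
theorem gf_ge (A : Set ℕ) (hinf : A.Infinite) (C : ℝ) (hC0 : 0 < C)
    (hC : ∀ n : ℕ, 1 ≤ n → (Nat.nth (fun a => a ∈ A) (n - 1) : ℝ) ≤ C * (n : ℝ) ^ 2)
    {s : ℝ} (hs : 0 < s) : √(π / (s * C)) / 2 ≤ gf A (Real.exp (-s)) + 1 := by
  have hb : 0 < s * C := mul_pos hs hC0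
  have hlim : Tendsto (fun N : ℕ => ∫ x in (0 : ℝ)..(N : ℝ), Real.exp (-(s * C) * x ^ 2)) atTop
      (𝓝 (∫ x in Set.Ioi (0 : ℝ), Real.exp (-(s * C) * x ^ 2))) :=
    MeasureTheory.intervalIntegral_tendsto_integral_Ioi 0
      ((integrable_exp_neg_mul_sq hb).integrableOn) tendsto_natCast_atTop_atTop
  rw [integral_gaussian_Ioi] at hlim
  refine le_of_tendsto' hlim fun N => ?_
  have hanti : AntitoneOn (fun x : ℝ => Real.exp (-(s * C) * x ^ 2)) (Set.Icc (0 : ℝ) (0 + N)) := by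
    intro x hx y hy hxy
    apply Real.exp_le_exp.2
    have : x ^ 2 ≤ y ^ 2 := pow_le_pow_left₀ hx.1 hxy 2
    nlinarith
  have h1 := hanti.integral_le_sum
  rw [zero_add] at h1
  refine h1.trans ?_
  have hρ0 : 0 ≤ Real.exp (-s) := (Real.exp_pos _).le
  have hρ1 : Real.exp (-s) < 1 := by
    rw [Real.exp_lt_one_iff]
    linarith
  have hgs : Summable fun n : ℕ => (if n ∈ A then Real.exp (-s) ^ n else 0 : ℝ) := by
    refine Summable.of_nonneg_of_le (fun n => by split_ifs <;> positivity) (fun n => ?_)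
      (summable_geometric_of_lt_one hρ0 hρ1)
    split_ifs
    · exact le_rfl
    · positivity
  have hmono : StrictMono (Nat.nth (fun a => a ∈ A)) := Nat.nth_strictMono hinf
  rcases Nat.eq_zero_or_pos N with rfl | hN
  · simp only [range_zero, sum_empty]
    have := gf_nonneg A hρ0
    linarith
  obtain ⟨M, rfl⟩ : ∃ M, N = M + 1 := ⟨N - 1, by omega⟩
  rw [Finset.sum_range_succ']
  refine add_le_add ?_ ?_
  · calc ∑ k ∈ range M, Real.exp (-(s * C) * (0 + ((k + 1 : ℕ) : ℝ)) ^ 2)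
        ≤ ∑ k ∈ range M, Real.exp (-s) ^ (Nat.nth (fun a => a ∈ A) k) := by
          refine Finset.sum_le_sum fun k _ => ?_
          rw [← Real.exp_nat_mul]
          apply Real.exp_le_exp.2
          have h2 := hC (k + 1) (by omega)
          rw [Nat.add_sub_cancel] at h2
          rw [zero_add]
          nlinarith
      _ = ∑ a ∈ (range M).image (Nat.nth (fun a => a ∈ A)),
            (if a ∈ A then Real.exp (-s) ^ a else 0 : ℝ) := by
          rw [Finset.sum_image (fun x _ y _ h => hmono.injective h)]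
          refine Finset.sum_congr rfl fun k _ => ?_
          have hk : Nat.nth (fun a => a ∈ A) k ∈ A := Nat.nth_mem_of_infinite hinf k
          rw [if_pos hk]
      _ ≤ gf A (Real.exp (-s)) := by
          unfold gf
          refine hgs.sum_le_tsum _ fun n _ => ?_
          split_ifs <;> positivity
  · simp

open Real in
/-- **Sets of quadratic growth.** -/
theorem growth (A : Set ℕ) (hinf : A.Infinite) (C : ℝ)
    (hC : ∀ n : ℕ, 1 ≤ n → (Nat.nth (fun a => a ∈ A) (n - 1) : ℝ) ≤ C * (n : ℝ) ^ 2)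
    (P : Finset ℕ) (hP : ∀ p ∈ P, p.Prime) :
    ∃ᶠ n : ℕ in atTop, π / (4 * C) * factor A P ≤ (TH314.ET.rep A n : ℝ) := by
  have hC0 : 0 < C := by
    have h1 := hC 2 (by norm_num)
    have h2 : 0 < Nat.nth (fun a => a ∈ A) (2 - 1) :=
      lt_of_le_of_lt (Nat.zero_le _) (Nat.nth_strictMono hinf (by norm_num : 0 < 2 - 1))
    have h3 : (0 : ℝ) < Nat.nth (fun a => a ∈ A) (2 - 1) := by exact_mod_cast h2
    by_contra h4
    push Not at h4
    push_cast at h1
    nlinarith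
  refine of_mean A P hP _ (by positivity) fun K n₁ _ m hm => ?_
  have hmap : Tendsto (fun s : ℝ => Real.exp (-s)) (𝓝[>] 0) (𝓝[<] 1) := by
    refine tendsto_nhdsWithin_iff.2 ⟨?_, ?_⟩
    · have h1 : Tendsto (fun s : ℝ => Real.exp (-s)) (𝓝[>] 0) (𝓝 (Real.exp (-0))) :=
        ((by fun_prop : Continuous fun s : ℝ => Real.exp (-s)).tendsto 0).mono_left
          nhdsWithin_le_nhds
      simpa using h1
    · filter_upwards [self_mem_nhdsWithin] with s hs
      have : (0 : ℝ) < s := hs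
      rw [Set.mem_Iio, Real.exp_lt_one_iff]
      linarith
  refine hmap.frequently (Eventually.frequently ?_)
  have hlim : Tendsto (fun s : ℝ => (1 + s)⁻¹ * (√(π / C) / 2 - √s) ^ 2) (𝓝[>] 0)
      (𝓝 (π / (4 * C))) := by
    have h1 : Tendsto (fun s : ℝ => (1 + s)⁻¹ * (√(π / C) / 2 - √s) ^ 2) (𝓝 0)
        (𝓝 ((1 + 0)⁻¹ * (√(π / C) / 2 - √0) ^ 2)) := by
      apply Tendsto.mul
      · exact Tendsto.inv₀ ((by fun_prop : Continuous fun s : ℝ => 1 + s).tendsto 0)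
          (by norm_num)
      · exact (by fun_prop : Continuous fun s : ℝ => (√(π / C) / 2 - √s) ^ 2).tendsto 0
    have h2 : ((1 + 0)⁻¹ * (√(π / C) / 2 - √0) ^ 2 : ℝ) = π / (4 * C) := by
      rw [Real.sqrt_zero, sub_zero, div_pow, Real.sq_sqrt (by positivity)]
      field_simp
      norm_num
    rw [h2] at h1
    exact h1.mono_left nhdsWithin_le_nhds
  have hsmall : ∀ᶠ s : ℝ in 𝓝[>] 0, √s < √(π / C) / 2 := by
    have h1 : Tendsto (fun s : ℝ => √s) (𝓝[>] 0) (𝓝 (√0)) :=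
      (Real.continuous_sqrt.tendsto 0).mono_left nhdsWithin_le_nhds
    rw [Real.sqrt_zero] at h1
    exact h1.eventually_lt_const (by positivity)
  filter_upwards [hlim.eventually_const_lt hm, hsmall, self_mem_nhdsWithin] with s h1 h2 h3
  have hs : (0 : ℝ) < s := h3
  have h4 := gf_ge A hinf C hC0 hC hs
  have h5 : √(π / (s * C)) = √(π / C) / √s := by
    rw [← Real.sqrt_div (by positivity)]
    congr 1
    field_simp
  have hss : 0 < √s := Real.sqrt_pos.2 hs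
  have h6 : (√(π / C) / 2 - √s) / √s ≤ gf A (Real.exp (-s)) := by
    rw [h5] at h4
    have h7 : (√(π / C) / 2 - √s) / √s = √(π / C) / √s / 2 - 1 := by
      field_simp
    linarith
  have h7 : 0 ≤ (√(π / C) / 2 - √s) / √s := div_nonneg (by linarith) hss.le
  have h8 : ((√(π / C) / 2 - √s) / √s) ^ 2 ≤ gf A (Real.exp (-s)) ^ 2 := pow_le_pow_left₀ h7 h6 2
  have h9 : s / (1 + s) ≤ 1 - Real.exp (-s) := by
    have h10 : 1 + s ≤ Real.exp s := by linarith [Real.add_one_le_exp s]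
    have h11 : Real.exp (-s) ≤ (1 + s)⁻¹ := by
      rw [Real.exp_neg]
      exact inv_anti₀ (by linarith) h10
    have h12 : s / (1 + s) = 1 - (1 + s)⁻¹ := by
      field_simp
      ring
    linarith
  calc m ≤ (1 + s)⁻¹ * (√(π / C) / 2 - √s) ^ 2 := h1.le
    _ = s / (1 + s) * ((√(π / C) / 2 - √s) / √s) ^ 2 := by
        rw [div_pow, Real.sq_sqrt hs.le]
        field_simp
    _ ≤ (1 - Real.exp (-s)) * gf A (Real.exp (-s)) ^ 2 := by
        have h13 : 0 ≤ s / (1 + s) := by positivity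
        exact mul_le_mul h9 h8 (by positivity) (h13.trans h9)

/-- **The representation function and the residue classes of a set.**

Let `M = 2` if every large integer is a sum of two elements of `A` (the hypothesis of Q1), and
`M = π / (4 C)` if `A` is infinite and `a_n ≤ C n²` for all `n ≥ 1` (the hypothesis of Q2). Then
for every finite set `P` of primes
`r_A(n) ≥ M ∏_{p ∈ P} (1 + (p - ν_p)² / (ν_p² (p - 1)))` for infinitely many `n`, where
`ν_p` is the number of the residue classes modulo `p` met by `A`. -/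
theorem result (A : Set ℕ) (M : ℝ)
    (hA : ((∀ᶠ n in atTop, 1 ≤ rep A n) ∧ M = 2) ∨
      (A.Infinite ∧ ∃ C : ℝ,
        (∀ n : ℕ, 1 ≤ n → (Nat.nth (fun a => a ∈ A) (n - 1) : ℝ) ≤ C * (n : ℝ) ^ 2) ∧
        M = Real.pi / (4 * C)))
    (P : Finset ℕ) (hP : ∀ p ∈ P, p.Prime) :
    ∃ᶠ n : ℕ in atTop,
      M * ∏ p ∈ P, (1 + (((p : ℝ) - res A p) / res A p) ^ 2 / ((p : ℝ) - 1)) ≤ (rep A n : ℝ) := by
  rcases hA with ⟨hA, rfl⟩ | ⟨hinf, C, hC, rfl⟩
  · exact basis A hA P hP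
  · exact growth A hinf C hC P hP

end Pool.Agent.Results.MP_12a1af_nt.ResidueProduct
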