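import Pool.Agent.X8.ET.Grow

/-!
# MP_12a1af_nt, Q1 and Q2: the discrepancy of the representation function over arbitrary windows

`rep A n` is the number `r_A(n)` of ordered pairs `(a, b) ∈ A × A` with `a + b = n`.  For a finite
set `W` of natural numbers and weights `w_k ≥ 0` (`k ∈ W`) consider `S(n) = ∑ w_k r_A(n - k)`.

1. Fixed windows.  Let `|A ∩ [0, x]| / log x` be unbounded (no other hypothesis).  If
   `l ≤ S(n) ≤ L` for all large `n`, then `(√L - √l)² ∑ w_k ≥ ∑ w_k²`.  For `w_k = 1`: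
   `√(limsup S) - √(liminf S) ≥ 1` for EVERY finite window `W`, and not only for `W = {0}`.
2. Windows which grow.  Let `r_A` be bounded and let `A` satisfy the hypothesis of Q1
   (`μ = 2`) or of Q2 (`μ = π / (4 C)`), and let `m < μ`.  For all large `N`, ALL weights with
   `(∑ w_k)² / ∑ w_k² ≤ √N / (log N)²` and `k (∑ w_k)² / ∑ w_k² ≤ N / (log N)²`, and all real `t`
   there is an `n ≤ N` with `|S(n) - t| ≥ √(m ∑ w_k²)`.

So, in a counterexample to one of the two conjectures, the number of representations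
`∑_{k ∈ W} r_A(n - k)` over every window `W` of at most `√N / (log N)²` elements (intervals,
arithmetic progressions with large differences, ...) has fluctuations at least as large as for
independent random variables: it deviates from any given number by `√(m |W|)`.

Method: for `f(z) = ∑_{a ∈ A} z^a`, `g(z) = ∑ w_k z^k` and `|z| = ρ` the mean value of `|g f|²` is
at least `∑ w_k² ρ^(2 k) ∑_{a ∈ A} ρ^(2 a)`, since all the coefficients are nonnegative; compare it
with the mean value of `|g| |g f² - t / (1 - z)|` and use Cauchy's inequality.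
-/

set_option autoImplicit false

open Finset Filter Topology

namespace Pool.Agent.Results.MP_12a1af_nt.WindowDiscrepancy

/-- The number `r_A(n)` of ordered pairs `(a, b) ∈ A × A` with `a + b = n`. -/
noncomputable def rep (A : Set ℕ) (n : ℕ) : ℕ :=
  Set.ncard {p : ℕ × ℕ | p.1 ∈ A ∧ p.2 ∈ A ∧ p.1 + p.2 = n}

/-- The window sum `S(n) = ∑_{k ∈ W} w_k r_A(n - k)`; it is used only for `n ≥ max W`. -/
noncomputable def window (A : Set ℕ) (W : Finset ℕ) (w : ℕ → ℝ) (n : ℕ) : ℝ :=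
  ∑ k ∈ W, w k * rep A (n - k)

open Classical in
theorem window_eq (A : Set ℕ) (W : Finset ℕ) (w : ℕ → ℝ) {n : ℕ} (hn : ∀ k ∈ W, k ≤ n) :
    X8.ET.Sw A (fun k => if k ∈ W then w k else 0) n = window A W w n := by
  unfold X8.ET.Sw window
  rw [Finset.Nat.sum_antidiagonal_eq_sum_range_succ
    (fun i j => (if i ∈ W then w i else 0) * (TH314.ET.rep A j : ℝ))]
  have h1 : ∀ k ∈ range (n + 1), (if k ∈ W then w k else 0) * (TH314.ET.rep A (n - k) : ℝ) =
      if k ∈ W then w k * (rep A (n - k) : ℝ) else 0 := by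
    intro k _
    split_ifs
    · rfl
    · exact zero_mul _
  rw [Finset.sum_congr rfl h1, ← Finset.sum_filter]
  refine Finset.sum_congr ?_ fun _ _ => rfl
  ext k
  simp only [Finset.mem_filter, Finset.mem_range]
  constructor
  · exact fun h => h.2
  · exact fun h => ⟨by have := hn k h; omega, h⟩

open Classical in
theorem sum_ite_eq' (W : Finset ℕ) (g : ℝ → ℝ) (w : ℕ → ℝ) :
    ∑ k ∈ W, g (if k ∈ W then w k else 0) = ∑ k ∈ W, g (w k) :=
  Finset.sum_congr rfl fun k hk => by rw [if_pos hk]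

/-- **Window discrepancy of representation functions.** -/
theorem result :
    -- 1. fixed windows
    (∀ A : Set ℕ, (∀ C : ℝ, ∃ x : ℕ, 2 ≤ x ∧ C * Real.log x ≤ ((A ∩ Set.Iic x).ncard : ℝ)) →
      ∀ (W : Finset ℕ) (w : ℕ → ℝ), (∀ k ∈ W, 0 ≤ w k) → ∀ l L : ℝ, 0 ≤ l →
        (∀ᶠ n in atTop, l ≤ window A W w n ∧ window A W w n ≤ L) →
        ∑ k ∈ W, w k ^ 2 ≤ (√L - √l) ^ 2 * ∑ k ∈ W, w k) ∧
    -- 2. growing windows
    (∀ (A : Set ℕ) (μ : ℝ),
      (((∀ᶠ n in atTop, 1 ≤ rep A n) ∧ μ = 2) ∨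
        (A.Infinite ∧ ∃ C : ℝ,
          (∀ n : ℕ, 1 ≤ n → (Nat.nth (fun a => a ∈ A) (n - 1) : ℝ) ≤ C * (n : ℝ) ^ 2) ∧
          μ = Real.pi / (4 * C))) →
      (∃ K : ℕ, ∀ n, rep A n ≤ K) → ∀ m : ℝ, 0 ≤ m → m < μ →
      ∀ᶠ N : ℕ in atTop, ∀ (W : Finset ℕ) (w : ℕ → ℝ), (∀ k ∈ W, 0 ≤ w k) → 0 < ∑ k ∈ W, w k →
        (∑ k ∈ W, w k) ^ 2 * Real.log N ^ 2 ≤ √N * ∑ k ∈ W, w k ^ 2 →
        (∀ k ∈ W, k * (∑ k ∈ W, w k) ^ 2 * Real.log N ^ 2 ≤ N * ∑ k ∈ W, w k ^ 2) →
        ∀ t : ℝ, ∃ n ≤ N, (∀ k ∈ W, k ≤ n) ∧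
          m * ∑ k ∈ W, w k ^ 2 ≤ (window A W w n - t) ^ 2) := by
  classical
  refine ⟨?_, ?_⟩
  · intro A hA W w hw l L hl h
    obtain ⟨n₁, hn₁⟩ := eventually_atTop.1 h
    have h1 := X8.ET.fixed A hA W (fun k => if k ∈ W then w k else 0)
      (fun k => by
        show 0 ≤ (if k ∈ W then w k else 0)
        split_ifs with hk
        · exact hw k hk
        · exact le_rfl)
      (fun k hk => if_neg hk) l L hl (max n₁ (W.sup id)) (fun n hn => by
        rw [window_eq A W w fun k hk => (Finset.le_sup (f := id) hk).trans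
          ((le_max_right _ _).trans hn)]
        exact hn₁ n ((le_max_left _ _).trans hn))
    have e1 := sum_ite_eq' W (fun x => x ^ 2) w
    have e2 := sum_ite_eq' W (fun x => x) w
    rw [e1, e2] at h1
    exact h1
  · rintro A μ hA ⟨K, hK⟩ m hm0 hm
    obtain ⟨m', hm1, hm2⟩ := exists_between hm
    have hR : ∀ᶠ R : ℝ in 𝓝[<] 1, m' ≤ (1 - R) * TH314.ET.gf A R ^ 2 := by
      rcases hA with ⟨hA, rfl⟩ | ⟨hinf, C, hC, rfl⟩
      · exact X8.ET.basis_ev A hA K hK hm2
      · exact X8.ET.growth_ev A hinf C hC hm2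
    filter_upwards [X8.ET.growing A K hK m m' hm0 hm1 hR] with N hN
    intro W w hw hpos hc1 hc2 t
    have e1 := sum_ite_eq' W (fun x => x ^ 2) w
    have e2 := sum_ite_eq' W (fun x => x) w
    have h1 := hN W (fun k => if k ∈ W then w k else 0)
      (fun k => by
        show 0 ≤ (if k ∈ W then w k else 0)
        split_ifs with hk
        · exact hw k hk
        · exact le_rfl)
      (fun k hk => if_neg hk)
    rw [e1, e2] at h1
    obtain ⟨n, hn1, hn2, hn3⟩ := h1 hpos hc1 hc2 t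
    refine ⟨n, hn1, hn2, ?_⟩
    rw [window_eq A W w hn2] at hn3
    exact hn3

end Pool.Agent.Results.MP_12a1af_nt.WindowDiscrepancy
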